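import Pool.Agent.Helper21.CU.St

set_option autoImplicit false

namespace Pool.Agent.Helper78.CU

open Pool.Agent.Helper21.CU Finset

noncomputable section

open scoped Classical in
/-- the set of pairs -/
def M (k : ℤ) (Z : ℕ) : Finset (ℤ × ℤ) :=
  (((Icc (1 : ℤ) (2 * Z + 2 * |k|)) ×ˢ (Icc (-(Z : ℤ)) Z)).filter
    (fun i : ℤ × ℤ => i.1 ∣ i.2 ^ 3 - k ∧ IsSquare (D k i.1 i.2)))

open scoped Classical in
/-- large values of s -/
def Bj (k : ℤ) (X S : ℕ) (j : ℤ) : Finset (ℕ × ℕ) :=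
  (((Ioc S X) ×ˢ (range X)).filter
    (fun i : ℕ × ℕ => i.2 ∈ R k i.1 ∧ IsSquare (D k i.1 (i.2 + i.1 * j))))

open scoped Classical in
/-- small values of s -/
def Gi (k : ℤ) (Z S : ℕ) : Finset (ℤ × ℤ) :=
  (((Icc (S : ℤ) (2 * S)) ×ˢ (Icc (-(Z : ℤ)) Z)).filter
    (fun i : ℤ × ℤ => i.1 ∣ i.2 ^ 3 - k ∧ IsSquare (D k i.1 i.2)))

theorem cover (k : ℤ) (Z S J : ℕ) (Y : ℝ) (hY : 0 < Y) (hS : (Z : ℝ) < (S + 1) * Y)
    (hJ : Y + 1 ≤ J) :
    (M k Z).card ≤ ∑ j ∈ Icc (-(J : ℤ)) J, (Bj k (2 * Z + 2 * k.natAbs) S j).card +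
      ∑ i ∈ range (Nat.log 2 S + 1), (Gi k Z (2 ^ i)).card := by
  classical
  obtain ⟨X, hX⟩ : ∃ X : ℕ, X = 2 * Z + 2 * k.natAbs := ⟨_, rfl⟩
  have hXZ : (X : ℤ) = 2 * Z + 2 * |k| := by
    rw [hX]
    push_cast
    rfl
  rw [← hX]
  have hsub : M k Z ⊆ ((Icc (-(J : ℤ)) J).biUnion fun j => (Bj k X S j).image
      (fun i : ℕ × ℕ => ((i.1 : ℤ), (i.2 : ℤ) + i.1 * j))) ∪
      ((range (Nat.log 2 S + 1)).biUnion fun i => Gi k Z (2 ^ i)) := by
    rintro ⟨s, z⟩ hsz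
    rw [M, Finset.mem_filter, Finset.mem_product, Finset.mem_Icc, Finset.mem_Icc, ← hXZ] at hsz
    obtain ⟨⟨⟨hs1, hs2⟩, hz1, hz2⟩, hd, hsq⟩ := hsz
    simp only at hs1 hs2 hz1 hz2 hd hsq
    rw [Finset.mem_union]
    obtain ⟨t, rfl⟩ : ∃ t : ℕ, s = t := ⟨s.toNat, (Int.toNat_of_nonneg (by omega)).symm⟩
    by_cases hSt : S < t
    · left
      rw [Finset.mem_biUnion]
      have ht0 : (0 : ℤ) < t := by omega
      have hv0 : 0 ≤ z % t := Int.emod_nonneg _ (by omega)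
      have hvt : z % t < t := Int.emod_lt_of_pos _ ht0
      have hdm : z % t + t * (z / t) = z := Int.emod_add_mul_ediv z t
      obtain ⟨v, hv⟩ : ∃ v : ℕ, z % t = v := ⟨(z % t).toNat, (Int.toNat_of_nonneg hv0).symm⟩
      rw [hv] at hdm hvt
      have htY : (Z : ℝ) < t * Y := by
        refine lt_of_lt_of_le hS ?_
        apply mul_le_mul_of_nonneg_right _ hY.le
        exact_mod_cast hSt
      have ht0R : (0 : ℝ) < t := by exact_mod_cast ht0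
      refine ⟨z / t, ?_, ?_⟩
      · rw [Finset.mem_Icc]
        constructor
        · by_contra hlt
          push Not at hlt
          have h1 : z / t + 1 ≤ -(J : ℤ) := by omega
          have h2 : (t : ℝ) * ((z / t : ℤ) : ℝ) + t = (z : ℝ) - v + t := by
            have : ((v : ℤ) : ℝ) + (t : ℝ) * ((z / t : ℤ) : ℝ) = z := by exact_mod_cast hdm
            push_cast at this
            linarith
          have h3 : ((z / t : ℤ) : ℝ) + 1 ≤ -(J : ℝ) := by exact_mod_cast h1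
          have h4 : (t : ℝ) * (((z / t : ℤ) : ℝ) + 1) ≤ t * (-(Y + 1)) := by
            apply mul_le_mul_of_nonneg_left _ ht0R.le
            linarith
          have h5 : (v : ℝ) < t := by exact_mod_cast hvt
          have h6 : -(Z : ℝ) ≤ z := by exact_mod_cast hz1
          nlinarith
        · by_contra hlt
          push Not at hlt
          have h3 : (J : ℝ) ≤ ((z / t : ℤ) : ℝ) := by exact_mod_cast hlt.le
          have h4 : (t : ℝ) * (Y + 1) ≤ t * ((z / t : ℤ) : ℝ) := by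
            apply mul_le_mul_of_nonneg_left _ ht0R.le
            linarith
          have h7 : ((v : ℤ) : ℝ) + (t : ℝ) * ((z / t : ℤ) : ℝ) = z := by exact_mod_cast hdm
          push_cast at h7
          have h6 : (z : ℝ) ≤ Z := by exact_mod_cast hz2
          have h8 : (0 : ℝ) ≤ v := Nat.cast_nonneg v
          nlinarith
      · rw [Finset.mem_image]
        refine ⟨(t, v), ?_, ?_⟩
        · rw [Bj, Finset.mem_filter, Finset.mem_product, Finset.mem_Ioc, Finset.mem_range]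
          simp only
          refine ⟨⟨⟨hSt, by omega⟩, by omega⟩, ?_, ?_⟩
          · rw [R, Finset.mem_filter, Finset.mem_range]
            refine ⟨by omega, ?_⟩
            have h9 : (v : ℤ) ^ 3 - k = (z ^ 3 - k) - t * ((z / t) * (z ^ 2 + z * v + (v : ℤ) ^ 2)) := by
              have : (t : ℤ) * (z / t) = z - v := by linarith
              rw [← mul_assoc, this]
              ring
            rw [h9]
            exact dvd_sub hd (dvd_mul_right _ _)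
          · rw [hdm]
            exact hsq
        · simp only
          rw [hdm]
    · right
      rw [Finset.mem_biUnion]
      push Not at hSt
      have ht0 : t ≠ 0 := by omega
      refine ⟨Nat.log 2 t, ?_, ?_⟩
      · rw [Finset.mem_range]
        exact Nat.lt_succ_of_le (Nat.log_mono_right hSt)
      · rw [Gi, Finset.mem_filter, Finset.mem_product, Finset.mem_Icc, Finset.mem_Icc]
        simp only
        have h1 := Nat.pow_log_le_self 2 ht0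
        have h2 := Nat.lt_pow_succ_log_self (b := 2) (by norm_num) t
        rw [pow_succ] at h2
        refine ⟨⟨⟨?_, ?_⟩, hz1, hz2⟩, hd, hsq⟩
        · exact_mod_cast h1
        · have h3 : t ≤ 2 * 2 ^ Nat.log 2 t := by omega
          exact_mod_cast h3
  refine (Finset.card_le_card hsub).trans ((Finset.card_union_le _ _).trans ?_)
  refine add_le_add (Finset.card_biUnion_le.trans ?_) Finset.card_biUnion_le
  exact Finset.sum_le_sum fun j _ => Finset.card_image_le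

theorem M_triv (k : ℤ) (Z : ℕ) : (M k Z).card ≤ (2 * Z + 2 * k.natAbs) * (2 * Z + 1) := by
  classical
  refine (Finset.card_filter_le _ _).trans ?_
  rw [Finset.card_product, Int.card_Icc, Int.card_Icc]
  refine Nat.mul_le_mul ?_ ?_
  · rw [Int.abs_eq_natAbs]
    omega
  · omega

/-- geometric sum -/
theorem geo (δ Zr Y : ℝ) (S : ℕ) (hδ : 0 < δ) (hZ : 0 < Zr) (hY : 0 < Y) (hS0 : S ≠ 0)
    (hS : (S : ℝ) ≤ Zr / Y) :
    ∑ i ∈ range (Nat.log 2 S + 1), ((2 : ℝ) ^ i / Zr) ^ δ ≤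
      (2 : ℝ) ^ δ / ((2 : ℝ) ^ δ - 1) * Y ^ (-δ) := by
  have hq : (1 : ℝ) < 2 ^ δ := Real.one_lt_rpow (by norm_num) hδ
  have e1 : ∀ i : ℕ, ((2 : ℝ) ^ i / Zr) ^ δ = ((2 : ℝ) ^ δ) ^ i * Zr ^ (-δ) := by
    intro i
    rw [Real.div_rpow (by positivity) hZ.le, Real.rpow_neg hZ.le, div_eq_mul_inv]
    congr 1
    rw [← Real.rpow_natCast, ← Real.rpow_natCast, ← Real.rpow_mul (by norm_num),
      ← Real.rpow_mul (by norm_num), mul_comm]
  rw [Finset.sum_congr rfl (fun i _ => e1 i), ← Finset.sum_mul, geom_sum_eq hq.ne']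
  have h1 : ((2 : ℝ) ^ δ) ^ (Nat.log 2 S) ≤ (Zr / Y) ^ δ := by
    have e2 : ((2 : ℝ) ^ δ) ^ (Nat.log 2 S) = ((2 : ℝ) ^ (Nat.log 2 S)) ^ δ := by
      rw [← Real.rpow_natCast, ← Real.rpow_natCast, ← Real.rpow_mul (by norm_num),
        ← Real.rpow_mul (by norm_num), mul_comm]
    rw [e2]
    refine Real.rpow_le_rpow (by positivity) (le_trans ?_ hS) hδ.le
    exact_mod_cast Nat.pow_log_le_self 2 hS0
  have h2 : (Zr / Y) ^ δ * Zr ^ (-δ) = Y ^ (-δ) := by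
    rw [Real.div_rpow hZ.le hY.le, Real.rpow_neg hZ.le, Real.rpow_neg hY.le]
    have : Zr ^ δ ≠ 0 := (Real.rpow_pos_of_pos hZ δ).ne'
    field_simp
  rw [← h2]
  have hz : 0 < Zr ^ (-δ) := Real.rpow_pos_of_pos hZ _
  have hq1 : (0 : ℝ) < 2 ^ δ - 1 := by linarith
  rw [div_mul_eq_mul_div, div_mul_eq_mul_div]
  apply div_le_div_of_nonneg_right _ hq1.le
  rw [← mul_assoc]
  apply mul_le_mul_of_nonneg_right _ hz.le
  rw [pow_succ]
  nlinarith

/-- large Z -/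
theorem big (k : ℤ) (ε C1 C2 P : ℝ) (hε0 : 0 < ε) (hε1 : ε ≤ 1) (hC1 : 0 < C1) (hC2 : 0 < C2)
    (hP : 1 ≤ P)
    (h3 : ∀ Q : ℝ, P ≤ Q → ∃ T : Finset ℕ, Tst k (Q ^ ε) Q T ∧ Q ^ ε ≤ T.card)
    (h1 : ∀ (X S : ℕ) (P₀ P₁ : ℝ) (T : Finset ℕ) (j : ℤ), 3 ≤ X →
      √(X : ℝ) ≤ S → S ≤ X → 1 ≤ P₀ → P₁ ^ 2 ≤ S → Tst k P₀ P₁ T → T.Nonempty →
      ((Bj k X S j).card : ℝ) ≤
      C1 * X * (1 / T.card + 1 / P₀ + P₁ ^ 2 * Real.log X ^ (-(1 / 20) : ℝ)))
    (h2 : ∀ (Z S : ℕ) (P₀ P₁ : ℝ) (T : Finset ℕ), 1 ≤ S → S ≤ Z →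
      1 ≤ P₀ → Tst k P₀ P₁ T → T.Nonempty →
      ((Gi k Z S).card : ℝ) ≤ C2 * (Z / T.card + Z / P₀ + S * P₁ ^ 2))
    (Z : ℕ) (hZ3 : 3 ≤ Z) (hE1 : P ≤ Real.log Z ^ (1 / 80 : ℝ))
    (hE2 : P ^ 4 ≤ Real.log Z ^ (ε / 160)) (hE3 : 4 * (√(2 + 2 * |(k : ℝ)|) + 1) ≤
      (Z : ℝ) ^ (1 / 4 : ℝ)) :
    ((M k Z).card : ℝ) ≤ (21 * C1 * (2 + 2 * |(k : ℝ)|) +
      3 * C2 * ((2 : ℝ) ^ (ε / 4) / ((2 : ℝ) ^ (ε / 4) - 1))) * Z *
        Real.log Z ^ (-(ε ^ 2 / 640)) := by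
  have hZ3R : (3 : ℝ) ≤ Z := by exact_mod_cast hZ3
  have hZ0 : (0 : ℝ) < Z := by linarith
  obtain ⟨L, hL⟩ : ∃ L, L = Real.log Z := ⟨_, rfl⟩
  have hL1 : 1 ≤ L := by
    rw [hL, Real.le_log_iff_exp_le hZ0]
    have := Real.exp_one_lt_d9
    linarith
  have hL0 : 0 < L := by linarith
  rw [← hL] at hE1 hE2 ⊢
  obtain ⟨Y, hY⟩ : ∃ Y, Y = L ^ (ε / 160) := ⟨_, rfl⟩
  have hY1 : 1 ≤ Y := by
    rw [hY]
    exact Real.one_le_rpow hL1 (by positivity)
  have hY0 : 0 < Y := by linarith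
  rw [← hY] at hE2
  obtain ⟨S, hS⟩ : ∃ S : ℕ, S = ⌊(Z : ℝ) / Y⌋₊ := ⟨_, rfl⟩
  have hSle : (S : ℝ) ≤ Z / Y := by
    rw [hS]
    exact Nat.floor_le (by positivity)
  have hSlt : (Z : ℝ) / Y < S + 1 := by
    rw [hS]
    exact Nat.lt_floor_add_one _
  obtain ⟨κ, hκ⟩ : ∃ κ : ℝ, κ = 2 + 2 * |(k : ℝ)| := ⟨_, rfl⟩
  have hκ2 : 2 ≤ κ := by
    rw [hκ]
    have := abs_nonneg (k : ℝ)
    linarith
  rw [← hκ] at hE3 ⊢
  obtain ⟨X, hX⟩ : ∃ X : ℕ, X = 2 * Z + 2 * k.natAbs := ⟨_, rfl⟩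
  have hXR : (X : ℝ) = 2 * Z + 2 * |(k : ℝ)| := by
    rw [hX]
    push_cast
    rw [Nat.cast_natAbs]
    push_cast
    rfl
  have hXZ : (Z : ℝ) ≤ X := by
    rw [hXR]
    have := abs_nonneg (k : ℝ)
    linarith
  have hXκ : (X : ℝ) ≤ κ * Z := by
    rw [hXR, hκ]
    have := abs_nonneg (k : ℝ)
    nlinarith
  have hX0 : (0 : ℝ) < X := by linarith
  have hLX : L ≤ Real.log X := by
    rw [hL]
    exact Real.log_le_log hZ0 hXZ
  have hLX1 : 1 ≤ Real.log X := hL1.trans hLX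
  have hLX0 : 0 < Real.log X := by linarith
  -- √X ≤ S
  obtain ⟨a, ha⟩ : ∃ a, a = (Z : ℝ) ^ (1 / 4 : ℝ) := ⟨_, rfl⟩
  have ha4 : a ^ 4 = Z := by
    rw [ha, ← Real.rpow_natCast, ← Real.rpow_mul hZ0.le]
    norm_num
  rw [← ha] at hE3
  have hsκ : 0 ≤ √κ := Real.sqrt_nonneg _
  have ha0 : 0 < a := by linarith
  have ha1 : 4 ≤ a := by linarith
  have hYa : Y ≤ 4 * a := by
    calc Y = L ^ (ε / 160) := hY
      _ ≤ L ^ (1 : ℝ) := Real.rpow_le_rpow_of_exponent_le hL1 (by linarith)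
      _ = L := Real.rpow_one _
      _ ≤ (Z : ℝ) ^ (1 / 4 : ℝ) / (1 / 4) := by
          rw [hL]
          exact Real.log_le_rpow_div hZ0.le (by norm_num)
      _ = 4 * a := by
          rw [ha]
          ring
  have hZY : a ^ 3 / 4 ≤ Z / Y := by
    rw [div_le_div_iff₀ (by norm_num) hY0, ← ha4]
    have : 0 ≤ a ^ 3 := by positivity
    nlinarith
  have hsX : √(X : ℝ) ≤ √κ * a ^ 2 := by
    calc √(X : ℝ) ≤ √(κ * Z) := Real.sqrt_le_sqrt hXκ
      _ = √κ * a ^ 2 := by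
          rw [Real.sqrt_mul (by linarith), ← ha4, show a ^ 4 = (a ^ 2) ^ 2 by ring,
            Real.sqrt_sq (by positivity)]
  have hXS : √(X : ℝ) ≤ S := by
    have h5 : √κ * a ^ 2 + 1 ≤ a ^ 3 / 4 := by
      have : 1 ≤ a ^ 2 := by nlinarith
      nlinarith
    linarith
  have hS0 : S ≠ 0 := by
    rintro rfl
    have : 0 < √(X : ℝ) := Real.sqrt_pos.2 hX0
    push_cast at hXS
    linarith
  have hSZR : (S : ℝ) ≤ Z := hSle.trans (div_le_self hZ0.le hY1)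
  have hSZ : S ≤ Z := by exact_mod_cast hSZR
  have hSX : S ≤ X := by
    have : (S : ℝ) ≤ X := hSZR.trans hXZ
    exact_mod_cast this
  obtain ⟨J, hJ⟩ : ∃ J : ℕ, J = ⌈Y⌉₊ + 1 := ⟨_, rfl⟩
  have hJ1 : Y + 1 ≤ J := by
    rw [hJ]
    push_cast
    have := Nat.le_ceil Y
    linarith
  have hJ2 : (J : ℝ) ≤ Y + 2 := by
    rw [hJ]
    push_cast
    have := Nat.ceil_lt_add_one hY0.le
    linarith
  have hcov := cover k Z S J Y hY0 (by rwa [div_lt_iff₀ hY0] at hSlt) hJ1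
  rw [← hX] at hcov
  have hcovR : ((M k Z).card : ℝ) ≤ ∑ j ∈ Icc (-(J : ℤ)) J, ((Bj k X S j).card : ℝ) +
      ∑ i ∈ range (Nat.log 2 S + 1), ((Gi k Z (2 ^ i)).card : ℝ) := by
    exact_mod_cast hcov
  -- first part
  have hpart1 : ∀ j : ℤ, ((Bj k X S j).card : ℝ) ≤ 3 * C1 * κ * Z * L ^ (-(ε / 80)) := by
    intro j
    obtain ⟨P1, hP1⟩ : ∃ P1, P1 = Real.log X ^ (1 / 80 : ℝ) := ⟨_, rfl⟩
    have hP1P : P ≤ P1 := by
      rw [hP1]
      exact hE1.trans (Real.rpow_le_rpow hL0.le hLX (by norm_num))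
    obtain ⟨T, hT, hTc⟩ := h3 P1 hP1P
    have hP11 : 1 ≤ P1 := hP.trans hP1P
    have hP0 : 1 ≤ P1 ^ ε := Real.one_le_rpow hP11 hε0.le
    have hT0 : (0 : ℝ) < T.card := by linarith
    have hTne : T.Nonempty := by
      rw [← Finset.card_pos]
      exact_mod_cast hT0
    have hsq : P1 ^ 2 = Real.log X ^ (1 / 40 : ℝ) := by
      rw [hP1, ← Real.rpow_natCast, ← Real.rpow_mul hLX0.le]
      norm_num
    have hP12 : P1 ^ 2 ≤ S := by
      rw [hsq]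
      refine le_trans ?_ hXS
      rw [Real.sqrt_eq_rpow]
      calc Real.log X ^ (1 / 40 : ℝ) ≤ (X : ℝ) ^ (1 / 40 : ℝ) := by
            apply Real.rpow_le_rpow hLX0.le _ (by norm_num)
            have := Real.log_le_sub_one_of_pos hX0
            linarith
        _ ≤ (X : ℝ) ^ (1 / 2 : ℝ) := by
            apply Real.rpow_le_rpow_of_exponent_le _ (by norm_num)
            linarith
    have hX3 : 3 ≤ X := by
      have : (3 : ℝ) ≤ X := hZ3R.trans hXZ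
      exact_mod_cast this
    have hb := h1 X S (P1 ^ ε) P1 T j hX3 hXS hSX hP0 hP12 hT hTne
    refine hb.trans ?_
    have e1 : 1 / P1 ^ ε = Real.log X ^ (-(ε / 80)) := by
      rw [hP1, ← Real.rpow_mul hLX0.le, Real.rpow_neg hLX0.le, one_div]
      congr 2
      ring
    have e2 : (1 : ℝ) / T.card ≤ Real.log X ^ (-(ε / 80)) := by
      rw [← e1]
      exact one_div_le_one_div_of_le (by linarith) hTc
    have e3 : P1 ^ 2 * Real.log X ^ (-(1 / 20) : ℝ) ≤ Real.log X ^ (-(ε / 80)) := by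
      rw [hsq, ← Real.rpow_add hLX0]
      apply Real.rpow_le_rpow_of_exponent_le hLX1
      linarith
    have e4 : Real.log X ^ (-(ε / 80)) ≤ L ^ (-(ε / 80)) :=
      Real.rpow_le_rpow_of_nonpos hL0 hLX (by linarith)
    have e5 : 0 < L ^ (-(ε / 80)) := Real.rpow_pos_of_pos hL0 _
    calc C1 * X * (1 / T.card + 1 / P1 ^ ε + P1 ^ 2 * Real.log X ^ (-(1 / 20) : ℝ)) ≤
        C1 * X * (3 * L ^ (-(ε / 80))) := by
          apply mul_le_mul_of_nonneg_left _ (by positivity)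
          rw [e1]
          linarith
      _ ≤ C1 * (κ * Z) * (3 * L ^ (-(ε / 80))) := by
          apply mul_le_mul_of_nonneg_right _ (by positivity)
          exact mul_le_mul_of_nonneg_left hXκ hC1.le
      _ = 3 * C1 * κ * Z * L ^ (-(ε / 80)) := by ring
  have hLL : L ^ (-(ε / 160)) ≤ L ^ (-(ε ^ 2 / 640)) := by
    apply Real.rpow_le_rpow_of_exponent_le hL1
    nlinarith
  have hsum1 : ∑ j ∈ Icc (-(J : ℤ)) J, ((Bj k X S j).card : ℝ) ≤
      21 * C1 * κ * Z * L ^ (-(ε ^ 2 / 640)) := by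
    have hcard : ((Icc (-(J : ℤ)) J).card : ℝ) = 2 * J + 1 := by
      rw [Int.card_Icc]
      have : ((J : ℤ) + 1 - -(J : ℤ)).toNat = 2 * J + 1 := by omega
      rw [this]
      push_cast
      ring
    have hβ : 0 ≤ 3 * C1 * κ * Z * L ^ (-(ε / 80)) := by positivity
    calc ∑ j ∈ Icc (-(J : ℤ)) J, ((Bj k X S j).card : ℝ) ≤
        ∑ j ∈ Icc (-(J : ℤ)) J, 3 * C1 * κ * Z * L ^ (-(ε / 80)) :=
          Finset.sum_le_sum fun j _ => hpart1 j
      _ = (2 * J + 1) * (3 * C1 * κ * Z * L ^ (-(ε / 80))) := by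
          rw [Finset.sum_const, nsmul_eq_mul, hcard]
      _ ≤ (7 * Y) * (3 * C1 * κ * Z * L ^ (-(ε / 80))) := by
          apply mul_le_mul_of_nonneg_right _ hβ
          linarith
      _ = 21 * C1 * κ * Z * (Y * L ^ (-(ε / 80))) := by ring
      _ = 21 * C1 * κ * Z * L ^ (-(ε / 160)) := by
          rw [hY, ← Real.rpow_add hL0]
          congr 2
          ring
      _ ≤ _ := mul_le_mul_of_nonneg_left hLL (by positivity)
  -- second part
  have hpart2 : ∀ i ∈ range (Nat.log 2 S + 1), ((Gi k Z (2 ^ i)).card : ℝ) ≤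
      3 * C2 * Z * ((2 : ℝ) ^ i / Z) ^ (ε / 4) := by
    intro i hi
    rw [Finset.mem_range] at hi
    have hiS : 2 ^ i ≤ S :=
      (Nat.pow_le_pow_right (by norm_num) (Nat.lt_succ_iff.1 hi)).trans
        (Nat.pow_log_le_self 2 hS0)
    have hiSR : (2 : ℝ) ^ i ≤ S := by exact_mod_cast hiS
    obtain ⟨x, hx⟩ : ∃ x : ℝ, x = (2 : ℝ) ^ i / Z := ⟨_, rfl⟩
    have hx0 : 0 < x := by rw [hx]; positivity
    have hxY : Y ≤ x⁻¹ := by
      rw [hx, inv_div, le_div_iff₀ (by positivity)]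
      calc Y * 2 ^ i ≤ Y * (Z / Y) := mul_le_mul_of_nonneg_left (hiSR.trans hSle) hY0.le
        _ = Z := by field_simp
    have hx1 : x ≤ 1 := by
      have : 1 ≤ x⁻¹ := hY1.trans hxY
      exact (one_le_inv₀ hx0).1 this
    obtain ⟨P1, hP1⟩ : ∃ P1, P1 = (x⁻¹) ^ (1 / 4 : ℝ) := ⟨_, rfl⟩
    have hP1P : P ≤ P1 := by
      have h5 : P = (P ^ 4) ^ (1 / 4 : ℝ) := by
        rw [← Real.rpow_natCast, ← Real.rpow_mul (by linarith)]
        norm_num
      rw [h5, hP1]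
      exact Real.rpow_le_rpow (by positivity) (hE2.trans hxY) (by norm_num)
    obtain ⟨T, hT, hTc⟩ := h3 P1 hP1P
    have hP11 : 1 ≤ P1 := hP.trans hP1P
    have hP0 : 1 ≤ P1 ^ ε := Real.one_le_rpow hP11 hε0.le
    have hT0 : (0 : ℝ) < T.card := by linarith
    have hTne : T.Nonempty := by
      rw [← Finset.card_pos]
      exact_mod_cast hT0
    have hb := h2 Z (2 ^ i) (P1 ^ ε) P1 T Nat.one_le_two_pow (hiS.trans hSZ) hP0 hT hTne
    refine hb.trans ?_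
    rw [← hx]
    have e1 : (Z : ℝ) / P1 ^ ε = Z * x ^ (ε / 4) := by
      rw [hP1, ← Real.rpow_mul (by positivity), Real.inv_rpow hx0.le, div_inv_eq_mul]
      congr 2
      ring
    have e2 : (Z : ℝ) / T.card ≤ Z * x ^ (ε / 4) := by
      rw [← e1]
      exact div_le_div_of_nonneg_left hZ0.le (by linarith) hTc
    have e3 : ((2 ^ i : ℕ) : ℝ) * P1 ^ 2 ≤ Z * x ^ (ε / 4) := by
      have e4 : ((2 ^ i : ℕ) : ℝ) = Z * x := by
        rw [hx]
        push_cast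
        field_simp
      have e5 : P1 ^ 2 = x ^ (-(1 / 2) : ℝ) := by
        rw [hP1, ← Real.rpow_natCast, ← Real.rpow_mul (by positivity), Real.inv_rpow hx0.le,
          Real.rpow_neg hx0.le]
        norm_num
      rw [e4, e5, mul_assoc]
      apply mul_le_mul_of_nonneg_left _ hZ0.le
      have e6 : x * x ^ (-(1 / 2) : ℝ) = x ^ (1 / 2 : ℝ) := by
        nth_rewrite 1 [← Real.rpow_one x]
        rw [← Real.rpow_add hx0]
        norm_num
      rw [e6]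
      exact Real.rpow_le_rpow_of_exponent_ge hx0 hx1 (by linarith)
    calc C2 * (Z / T.card + Z / P1 ^ ε + ((2 ^ i : ℕ) : ℝ) * P1 ^ 2) ≤
        C2 * (3 * (Z * x ^ (ε / 4))) := by
          apply mul_le_mul_of_nonneg_left _ hC2.le
          rw [e1]
          linarith
      _ = 3 * C2 * Z * x ^ (ε / 4) := by ring
  have hsum2 : ∑ i ∈ range (Nat.log 2 S + 1), ((Gi k Z (2 ^ i)).card : ℝ) ≤
      3 * C2 * ((2 : ℝ) ^ (ε / 4) / ((2 : ℝ) ^ (ε / 4) - 1)) * Z * L ^ (-(ε ^ 2 / 640)) := by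
    refine (Finset.sum_le_sum hpart2).trans ?_
    rw [← Finset.mul_sum]
    have hg := geo (ε / 4) Z Y S (by positivity) hZ0 hY0 hS0 hSle
    have hYL : Y ^ (-(ε / 4)) = L ^ (-(ε ^ 2 / 640)) := by
      rw [hY, ← Real.rpow_mul hL0.le]
      congr 1
      ring
    rw [hYL] at hg
    calc 3 * C2 * Z * ∑ i ∈ range (Nat.log 2 S + 1), ((2 : ℝ) ^ i / Z) ^ (ε / 4) ≤
        3 * C2 * Z * ((2 : ℝ) ^ (ε / 4) / ((2 : ℝ) ^ (ε / 4) - 1) * L ^ (-(ε ^ 2 / 640))) :=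
          mul_le_mul_of_nonneg_left hg (by positivity)
      _ = _ := by ring
  calc ((M k Z).card : ℝ) ≤ _ := hcovR
    _ ≤ _ := add_le_add hsum1 hsum2
    _ = _ := by ring

theorem hPRS : StRG1 → StRG2 → StPRM → StPRS := by
  intro h1 h2 h3
  obtain ⟨ε, hε0, hε1, h3⟩ := h3
  refine ⟨ε ^ 2 / 640, by positivity, ?_⟩
  intro k hk
  obtain ⟨C1, hC1, h1⟩ := h1 k hk
  obtain ⟨C2, hC2, h2⟩ := h2 k hk
  have hk0 : k ≠ 0 := by
    rintro rfl
    exact hk 0 (by norm_num)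
  obtain ⟨P2, h3⟩ := h3 k hk0
  obtain ⟨P, hP1, hPP⟩ : ∃ P : ℝ, 1 ≤ P ∧ P2 ≤ P := ⟨max 1 P2, le_max_left _ _, le_max_right _ _⟩
  have hlog : Filter.Tendsto (fun Z : ℕ => Real.log (Z : ℝ)) Filter.atTop Filter.atTop :=
    Real.tendsto_log_atTop.comp tendsto_natCast_atTop_atTop
  have t1 : Filter.Tendsto (fun Z : ℕ => Real.log (Z : ℝ) ^ (1 / 80 : ℝ)) Filter.atTop
      Filter.atTop := (tendsto_rpow_atTop (by norm_num)).comp hlog
  have t2 : Filter.Tendsto (fun Z : ℕ => Real.log (Z : ℝ) ^ (ε / 160)) Filter.atTop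
      Filter.atTop := (tendsto_rpow_atTop (by positivity)).comp hlog
  have t3 : Filter.Tendsto (fun Z : ℕ => (Z : ℝ) ^ (1 / 4 : ℝ)) Filter.atTop
      Filter.atTop := (tendsto_rpow_atTop (by norm_num)).comp tendsto_natCast_atTop_atTop
  obtain ⟨Z1, hZ1⟩ := Filter.eventually_atTop.1 ((t1.eventually_ge_atTop P).and
    ((t2.eventually_ge_atTop (P ^ 4)).and
      (t3.eventually_ge_atTop (4 * (√(2 + 2 * |(k : ℝ)|) + 1)))))
  obtain ⟨Z0, hZ0⟩ : ∃ Z0 : ℕ, Z0 = max Z1 3 := ⟨_, rfl⟩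
  have hZ03 : 3 ≤ Z0 := by rw [hZ0]; exact le_max_right _ _
  obtain ⟨Cb, hCb⟩ : ∃ Cb : ℝ, Cb = 21 * C1 * (2 + 2 * |(k : ℝ)|) +
      3 * C2 * ((2 : ℝ) ^ (ε / 4) / ((2 : ℝ) ^ (ε / 4) - 1)) := ⟨_, rfl⟩
  have hq : (1 : ℝ) < 2 ^ (ε / 4) := Real.one_lt_rpow (by norm_num) (by positivity)
  have hCb0 : 0 < Cb := by
    rw [hCb]
    have hq1 : (0 : ℝ) < 2 ^ (ε / 4) - 1 := by linarith
    positivity
  obtain ⟨Q, hQ⟩ : ∃ Q : ℝ, Q = (2 * Z0 + 2 * (k.natAbs : ℝ)) * (2 * Z0 + 1) := ⟨_, rfl⟩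
  have hQ0 : 0 ≤ Q := by rw [hQ]; positivity
  have hlog0 : ∀ Z : ℕ, 3 ≤ Z → 1 ≤ Real.log Z := by
    intro Z hZ
    have hZR : (3 : ℝ) ≤ Z := by exact_mod_cast hZ
    rw [Real.le_log_iff_exp_le (by linarith)]
    have := Real.exp_one_lt_d9
    linarith
  have hl0 := hlog0 Z0 hZ03
  refine ⟨Cb + Q * Real.log Z0 ^ (ε ^ 2 / 640), by positivity, ?_⟩
  intro Z hZ3
  have hl := hlog0 Z hZ3
  have hZR : (3 : ℝ) ≤ Z := by exact_mod_cast hZ3
  have hlp : 0 < Real.log Z ^ (ε ^ 2 / 640) := Real.rpow_pos_of_pos (by linarith) _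
  change ((M k Z).card : ℝ) ≤ _
  rcases le_or_gt Z0 Z with hZZ | hZZ
  · have hb := big k ε C1 C2 P hε0 hε1 hC1 hC2 hP1 (fun Q hQ => h3 Q (hPP.trans hQ)) h1 h2 Z hZ3
      (hZ1 Z (by rw [hZ0] at hZZ; exact (le_max_left _ _).trans hZZ)).1
      (hZ1 Z (by rw [hZ0] at hZZ; exact (le_max_left _ _).trans hZZ)).2.1
      (hZ1 Z (by rw [hZ0] at hZZ; exact (le_max_left _ _).trans hZZ)).2.2
    rw [← hCb, Real.rpow_neg (by linarith), ← div_eq_mul_inv] at hb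
    refine hb.trans ?_
    apply div_le_div_of_nonneg_right _ hlp.le
    apply mul_le_mul_of_nonneg_right _ (by linarith)
    have : 0 ≤ Q * Real.log Z0 ^ (ε ^ 2 / 640) := by positivity
    linarith
  · have hM : ((M k Z).card : ℝ) ≤ Q := by
      have h5 := M_triv k Z
      have h6 : (2 * Z + 2 * k.natAbs) * (2 * Z + 1) ≤ (2 * Z0 + 2 * k.natAbs) * (2 * Z0 + 1) :=
        Nat.mul_le_mul (by omega) (by omega)
      rw [hQ]
      exact_mod_cast h5.trans h6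
    have hll : Real.log Z ^ (ε ^ 2 / 640) ≤ Real.log Z0 ^ (ε ^ 2 / 640) := by
      apply Real.rpow_le_rpow (by linarith) _ (by positivity)
      apply Real.log_le_log (by linarith)
      exact_mod_cast hZZ.le
    rw [le_div_iff₀ hlp]
    calc ((M k Z).card : ℝ) * Real.log Z ^ (ε ^ 2 / 640) ≤ Q * Real.log Z0 ^ (ε ^ 2 / 640) :=
          mul_le_mul hM hll hlp.le hQ0
      _ ≤ (Cb + Q * Real.log Z0 ^ (ε ^ 2 / 640)) * 1 := by
          rw [mul_one]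
          linarith
      _ ≤ (Cb + Q * Real.log Z0 ^ (ε ^ 2 / 640)) * Z := by
          apply mul_le_mul_of_nonneg_left _ (by positivity)
          linarith

end

end Pool.Agent.Helper78.CU
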