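import Pool.Agent.Helper21.CU.St

set_option autoImplicit false

/-! Project CU (helper21), MP_ad0dc2_nt: module ET (helper78): a weak Erdos-Turan inequality. -/

namespace Pool.Agent.Helper78.CU

open Pool.Agent.Helper21.CU Finset

lemma ec_add (s t : ℝ) : ec (s + t) = ec s * ec t := by
  unfold ec
  rw [← Complex.exp_add]
  congr 1
  push_cast
  ring

lemma ec_norm (t : ℝ) : ‖ec t‖ = 1 := by
  unfold ec
  have : (2 * Real.pi * t * Complex.I : ℂ) = ((2 * Real.pi * t : ℝ) : ℂ) * Complex.I := by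
    push_cast
    ring
  rw [this, Complex.norm_exp_ofReal_mul_I]

lemma ec_re (t : ℝ) : (ec t).re = Real.cos (2 * Real.pi * t) := by
  unfold ec
  have : (2 * Real.pi * t * Complex.I : ℂ) = ((2 * Real.pi * t : ℝ) : ℂ) * Complex.I := by
    push_cast
    ring
  rw [this, Complex.exp_ofReal_mul_I_re]

lemma ec_im (t : ℝ) : (ec t).im = Real.sin (2 * Real.pi * t) := by
  unfold ec
  have : (2 * Real.pi * t * Complex.I : ℂ) = ((2 * Real.pi * t : ℝ) : ℂ) * Complex.I := by
    push_cast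
    ring
  rw [this, Complex.exp_ofReal_mul_I_im]

/-- The geometric sum. -/
noncomputable def Dk (H : ℕ) (t : ℝ) : ℂ := ∑ j ∈ range H, ec (j * t)

lemma re_mul_conj (H : ℕ) (t : ℝ) :
    (Dk H t * (starRingEnd ℂ) (ec (H * t))).re = ∑ m ∈ Ico 1 (H + 1), Real.cos (2 * Real.pi * (m * t)) := by
  have h1 : ∀ j ∈ range H, (ec (j * t) * (starRingEnd ℂ) (ec (H * t))).re = Real.cos (2 * Real.pi * (((H - j : ℕ) : ℝ) * t)) := by
    intro j hj
    have hj' : j ≤ H := (mem_range.mp hj).le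
    rw [Complex.mul_re, Complex.conj_re, Complex.conj_im, ec_re, ec_re, ec_im, ec_im, Nat.cast_sub hj']
    have : 2 * Real.pi * (((H : ℝ) - j) * t) = 2 * Real.pi * (H * t) - 2 * Real.pi * (j * t) := by ring
    rw [this, Real.cos_sub]
    ring
  unfold Dk
  rw [Finset.sum_mul, Complex.re_sum, Finset.sum_congr rfl h1, Finset.sum_Ico_eq_sum_range]
  rw [← Finset.sum_range_reflect]
  simp only [Nat.add_sub_cancel]
  refine Finset.sum_congr rfl fun j hj => ?_
  have hj' : j < H := mem_range.mp hj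
  have : H - (H - 1 - j) = 1 + j := by omega
  rw [this]

lemma normSq_Dk (H : ℕ) (hH : 1 ≤ H) (t : ℝ) :
    Complex.normSq (Dk H t) = H + ∑ m ∈ Ico 1 H, 2 * ((H : ℝ) - m) * Real.cos (2 * Real.pi * (m * t)) := by
  induction H, hH using Nat.le_induction with
  | base =>
    unfold Dk
    rw [sum_range_one]
    have := ec_norm (((0 : ℕ) : ℝ) * t)
    rw [Complex.normSq_eq_norm_sq, this]
    simp
  | succ H hH ih =>
    have e1 : Dk (H + 1) t = Dk H t + ec (H * t) := by
      unfold Dk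
      rw [sum_range_succ]
    rw [e1, Complex.normSq_add, ih, re_mul_conj, Complex.normSq_eq_norm_sq, ec_norm, Finset.sum_Ico_succ_top hH, Finset.sum_Ico_succ_top hH]
    push_cast
    have e2 : ∑ m ∈ Ico 1 H, 2 * ((H : ℝ) + 1 - m) * Real.cos (2 * Real.pi * (m * t)) =
        ∑ m ∈ Ico 1 H, 2 * ((H : ℝ) - m) * Real.cos (2 * Real.pi * (m * t)) + 2 * ∑ m ∈ Ico 1 H, Real.cos (2 * Real.pi * (m * t)) := by
      rw [mul_sum, ← sum_add_distrib]
      refine sum_congr rfl fun m _ => ?_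
      ring
    rw [e2]
    ring

/-- The Fejer kernel. -/
noncomputable def Fk (H : ℕ) (t : ℝ) : ℝ := 1 + ∑ m ∈ Ico 1 H, 2 * (1 - (m : ℝ) / H) * Real.cos (2 * Real.pi * (m * t))

/-- Its primitive. -/
noncomputable def Pk (H : ℕ) (t : ℝ) : ℝ := t + ∑ m ∈ Ico 1 H, (1 - (m : ℝ) / H) / (Real.pi * m) * Real.sin (2 * Real.pi * (m * t))

lemma Fk_eq (H : ℕ) (hH : 1 ≤ H) (t : ℝ) : Fk H t = Complex.normSq (Dk H t) / H := by
  have hH0 : (H : ℝ) ≠ 0 := by
    have : (0 : ℝ) < H := by exact_mod_cast hH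
    exact this.ne'
  rw [normSq_Dk H hH, add_div, div_self hH0, sum_div]
  unfold Fk
  congr 1
  refine sum_congr rfl fun m _ => ?_
  field_simp

lemma Fk_nonneg (H : ℕ) (hH : 1 ≤ H) (t : ℝ) : 0 ≤ Fk H t := by
  rw [Fk_eq H hH]
  exact div_nonneg (Complex.normSq_nonneg _) (Nat.cast_nonneg _)

lemma Fk_le (H : ℕ) (hH : 1 ≤ H) (t : ℝ) (h0 : 0 < t) (h1 : t ≤ 1 / 2) : Fk H t ≤ 1 / (4 * H * t ^ 2) := by
  have hH0 : (0 : ℝ) < H := by exact_mod_cast hH
  have hgeo : (ec t - 1) * Dk H t = ec (H * t) - 1 := by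
    have e1 : ∀ j : ℕ, ec (j * t) = ec t ^ j := by
      intro j
      induction j with
      | zero => simp [ec]
      | succ j ih =>
        rw [pow_succ, ← ih, ← ec_add]
        congr 1
        push_cast
        ring
    unfold Dk
    rw [Finset.sum_congr rfl fun j _ => e1 j, e1 H]
    have := mul_geom_sum (ec t) H
    exact this
  have hn1 : ‖ec t - 1‖ = 2 * Real.sin (Real.pi * t) := by
    have : ec t = Complex.exp (Complex.I * ((2 * Real.pi * t : ℝ) : ℂ)) := by
      unfold ec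
      congr 1
      push_cast
      ring
    rw [this, Complex.norm_exp_I_mul_ofReal_sub_one]
    have e : 2 * Real.pi * t / 2 = Real.pi * t := by ring
    rw [e, Real.norm_of_nonneg]
    refine mul_nonneg (by norm_num) (Real.sin_nonneg_of_nonneg_of_le_pi (by positivity) ?_)
    nlinarith [Real.pi_pos]
  have hsin : 2 * t ≤ Real.sin (Real.pi * t) := by
    have h := Real.mul_le_sin (x := Real.pi * t) (by positivity) (by nlinarith [Real.pi_pos])
    have e : 2 / Real.pi * (Real.pi * t) = 2 * t := by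
      field_simp
    rw [e] at h
    exact h
  have hn2 : ‖ec (H * t) - 1‖ ≤ 2 := by
    calc ‖ec (H * t) - 1‖ ≤ ‖ec (H * t)‖ + ‖(1 : ℂ)‖ := norm_sub_le _ _
      _ = 2 := by
        rw [ec_norm, norm_one]
        norm_num
  have hn3 : ‖Dk H t‖ * (2 * t) ≤ 1 := by
    have h := congrArg norm hgeo
    rw [norm_mul, hn1] at h
    have h5 : 2 * (2 * t) * ‖Dk H t‖ ≤ 2 * Real.sin (Real.pi * t) * ‖Dk H t‖ :=
      mul_le_mul_of_nonneg_right (by linarith) (norm_nonneg _)
    rw [h] at h5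
    nlinarith
  rw [Fk_eq H hH, Complex.normSq_eq_norm_sq, div_le_div_iff₀ hH0 (by positivity)]
  have h6 : (‖Dk H t‖ * (2 * t)) ^ 2 ≤ 1 := by
    have : 0 ≤ ‖Dk H t‖ * (2 * t) := by positivity
    nlinarith
  nlinarith

lemma Pk_deriv (H : ℕ) (t : ℝ) : HasDerivAt (Pk H) (Fk H t) t := by
  unfold Pk Fk
  refine (hasDerivAt_id t).add ?_
  have := HasDerivAt.fun_sum (u := Ico 1 H) (x := t)
    (A := fun m t => (1 - (m : ℝ) / H) / (Real.pi * m) * Real.sin (2 * Real.pi * (m * t)))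
    (A' := fun m => 2 * (1 - (m : ℝ) / H) * Real.cos (2 * Real.pi * (m * t))) ?_
  · exact this
  · intro m hm
    have hm1 : (0 : ℝ) < m := by exact_mod_cast (mem_Ico.mp hm).1
    have h1 : HasDerivAt (fun t : ℝ => 2 * Real.pi * (m * t)) (2 * Real.pi * (m * 1)) t :=
      ((hasDerivAt_id t).const_mul (m : ℝ)).const_mul (2 * Real.pi)
    have h2 := (h1.sin).const_mul ((1 - (m : ℝ) / H) / (Real.pi * m))
    refine h2.congr_deriv ?_
    have hpi := Real.pi_ne_zero
    field_simp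

lemma Pk_mono (H : ℕ) (hH : 1 ≤ H) : Monotone (Pk H) :=
  monotone_of_deriv_nonneg (fun t => (Pk_deriv H t).differentiableAt) (fun t => by
    rw [(Pk_deriv H t).deriv]
    exact Fk_nonneg H hH t)

lemma Pk_int (H : ℕ) (t : ℝ) (z : ℤ) : Pk H (t + z) = Pk H t + z := by
  unfold Pk
  have : ∀ m ∈ Ico 1 H, (1 - (m : ℝ) / H) / (Real.pi * m) * Real.sin (2 * Real.pi * (m * (t + z))) =
      (1 - (m : ℝ) / H) / (Real.pi * m) * Real.sin (2 * Real.pi * (m * t)) := by
    intro m _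
    congr 1
    have e : 2 * Real.pi * (m * (t + z)) = 2 * Real.pi * (m * t) + ((m * z : ℤ) : ℝ) * (2 * Real.pi) := by
      push_cast
      ring
    rw [e, Real.sin_add_int_mul_two_pi]
  rw [sum_congr rfl this]
  ring

lemma Pk_neg (H : ℕ) (t : ℝ) : Pk H (-t) = - Pk H t := by
  unfold Pk
  rw [neg_add, ← sum_neg_distrib]
  congr 1
  refine sum_congr rfl fun m _ => ?_
  have e : 2 * Real.pi * (m * (-t)) = -(2 * Real.pi * (m * t)) := by ring
  rw [e, Real.sin_neg]
  ring

lemma Pk_half (H : ℕ) : Pk H (1 / 2) = 1 / 2 := by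
  have h1 := Pk_int H (-(1 / 2)) 1
  rw [Pk_neg] at h1
  have e : (-(1 / 2) + ((1 : ℤ) : ℝ) : ℝ) = 1 / 2 := by norm_num
  rw [e] at h1
  push_cast at h1
  linarith

lemma Pk_gap (H : ℕ) (hH : 1 ≤ H) (δ : ℝ) (h0 : 0 < δ) (h1 : δ ≤ 1 / 2) :
    Pk H (1 - δ) - Pk H δ ≤ 1 / (2 * H * δ) := by
  have hH0 : (0 : ℝ) < H := by exact_mod_cast hH
  have hanti : AntitoneOn (fun t : ℝ => Pk H t + (1 / (4 * H)) * t⁻¹) (Set.Icc δ (1 / 2)) := by
    have hd : ∀ t : ℝ, 0 < t → HasDerivAt (fun t : ℝ => Pk H t + (1 / (4 * H)) * t⁻¹) (Fk H t + (1 / (4 * H)) * (-(t ^ 2)⁻¹)) t := by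
      intro t ht
      exact (Pk_deriv H t).add ((hasDerivAt_inv ht.ne').const_mul _)
    refine antitoneOn_of_deriv_nonpos (convex_Icc _ _) ?_ ?_ ?_
    · intro t ht
      exact (hd t (h0.trans_le ht.1)).continuousAt.continuousWithinAt
    · intro t ht
      rw [interior_Icc] at ht
      exact (hd t (h0.trans ht.1)).differentiableAt.differentiableWithinAt
    · intro t ht
      rw [interior_Icc] at ht
      rw [(hd t (h0.trans ht.1)).deriv]
      have h2 := Fk_le H hH t (h0.trans ht.1) ht.2.le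
      have h3 : 1 / (4 * (H : ℝ)) * (t ^ 2)⁻¹ = 1 / (4 * H * t ^ 2) := by
        rw [← one_div, div_mul_div_comm, one_mul]
      linarith [h3]
  have h2 := hanti ⟨le_refl δ, h1⟩ ⟨h1, le_refl _⟩ h1
  simp only at h2
  rw [Pk_half] at h2
  have h3 : Pk H (1 - δ) = 1 - Pk H δ := by
    have := Pk_int H (-δ) 1
    rw [Pk_neg] at this
    have e : (-δ + ((1 : ℤ) : ℝ) : ℝ) = 1 - δ := by
      push_cast
      ring
    rw [e] at this
    rw [this]
    push_cast
    ring
  rw [h3]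
  have h4 : 1 / (4 * (H : ℝ)) * δ⁻¹ = 1 / (2 * H * δ) / 2 := by
    field_simp
    norm_num
  have h5 : 0 ≤ 1 / (4 * (H : ℝ)) * (1 / 2 : ℝ)⁻¹ := by positivity
  linarith

lemma sin_sum_le (I : Finset ℕ) (y : ℕ → ℝ) (m : ℕ) (a : ℝ) :
    |∑ i ∈ I, Real.sin (2 * Real.pi * (m * (y i - a)))| ≤ ‖∑ i ∈ I, ec (m * y i)‖ := by
  have e1 : ∑ i ∈ I, Real.sin (2 * Real.pi * (m * (y i - a))) = (ec (-(m * a)) * ∑ i ∈ I, ec (m * y i)).im := by
    rw [mul_sum, Complex.im_sum]
    refine sum_congr rfl fun i _ => ?_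
    rw [← ec_add, ec_im]
    congr 1
    ring
  rw [e1]
  refine (Complex.abs_im_le_norm _).trans ?_
  rw [norm_mul, ec_norm, one_mul]

/-- The sum over the points of the smoothed indicator function. -/
lemma sum_G (I : Finset ℕ) (y : ℕ → ℝ) (H : ℕ) (a b : ℝ) :
    |∑ i ∈ I, (Pk H (y i - a) - Pk H (y i - b)) - (b - a) * I.card| ≤
      ∑ h ∈ Icc 1 H, (1 : ℝ) / h * ‖∑ i ∈ I, ec (h * y i)‖ := by
  have e1 : ∑ i ∈ I, (Pk H (y i - a) - Pk H (y i - b)) - (b - a) * I.card =
      ∑ m ∈ Ico 1 H, (1 - (m : ℝ) / H) / (Real.pi * m) * (∑ i ∈ I, Real.sin (2 * Real.pi * (m * (y i - a))) -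
        ∑ i ∈ I, Real.sin (2 * Real.pi * (m * (y i - b)))) := by
    have e2 : ∀ i ∈ I, Pk H (y i - a) - Pk H (y i - b) = (b - a) + ∑ m ∈ Ico 1 H, (1 - (m : ℝ) / H) / (Real.pi * m) *
        (Real.sin (2 * Real.pi * (m * (y i - a))) - Real.sin (2 * Real.pi * (m * (y i - b)))) := by
      intro i _
      unfold Pk
      simp only [mul_sub, sum_sub_distrib]
      ring
    rw [sum_congr rfl e2, sum_add_distrib, sum_const, nsmul_eq_mul, sum_comm]
    have e3 : ∀ m ∈ Ico 1 H, ∑ i ∈ I, (1 - (m : ℝ) / H) / (Real.pi * m) *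
        (Real.sin (2 * Real.pi * (m * (y i - a))) - Real.sin (2 * Real.pi * (m * (y i - b)))) =
        (1 - (m : ℝ) / H) / (Real.pi * m) * (∑ i ∈ I, Real.sin (2 * Real.pi * (m * (y i - a))) -
        ∑ i ∈ I, Real.sin (2 * Real.pi * (m * (y i - b)))) := by
      intro m _
      rw [← mul_sum, sum_sub_distrib]
    rw [sum_congr rfl e3]
    ring
  rw [e1]
  refine (abs_sum_le_sum_abs _ _).trans ?_
  have h3 : ∀ m ∈ Ico 1 H, |(1 - (m : ℝ) / H) / (Real.pi * m) * (∑ i ∈ I, Real.sin (2 * Real.pi * (m * (y i - a))) -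
        ∑ i ∈ I, Real.sin (2 * Real.pi * (m * (y i - b))))| ≤ (1 : ℝ) / m * ‖∑ i ∈ I, ec (m * y i)‖ := by
    intro m hm
    obtain ⟨hm1, hm2⟩ := mem_Ico.mp hm
    have hm0 : (0 : ℝ) < m := by exact_mod_cast hm1
    have hH0 : (0 : ℝ) < H := by
      have : 0 < H := by omega
      exact_mod_cast this
    have hmH : (m : ℝ) / H ≤ 1 := by
      rw [div_le_one hH0]
      exact_mod_cast hm2.le
    have hmH0 : 0 ≤ (m : ℝ) / H := by positivity
    have hs1 := sin_sum_le I y m a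
    have hs2 := sin_sum_le I y m b
    have hN : 0 ≤ ‖∑ i ∈ I, ec (m * y i)‖ := norm_nonneg _
    have hs : |∑ i ∈ I, Real.sin (2 * Real.pi * (m * (y i - a))) - ∑ i ∈ I, Real.sin (2 * Real.pi * (m * (y i - b)))| ≤
        2 * ‖∑ i ∈ I, ec (m * y i)‖ := by
      refine (abs_sub _ _).trans ?_
      linarith
    rw [abs_mul]
    have hc : |(1 - (m : ℝ) / H) / (Real.pi * m)| ≤ 1 / (2 * m) := by
      rw [abs_of_nonneg (div_nonneg (by linarith) (by positivity))]
      have hpi := Real.pi_gt_three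
      rw [div_le_div_iff₀ (by positivity) (by positivity)]
      nlinarith
    calc |(1 - (m : ℝ) / H) / (Real.pi * m)| * |∑ i ∈ I, Real.sin (2 * Real.pi * (m * (y i - a))) - ∑ i ∈ I, Real.sin (2 * Real.pi * (m * (y i - b)))|
        ≤ 1 / (2 * m) * (2 * ‖∑ i ∈ I, ec (m * y i)‖) := mul_le_mul hc hs (abs_nonneg _) (by positivity)
      _ = (1 : ℝ) / m * ‖∑ i ∈ I, ec (m * y i)‖ := by
          field_simp
  refine (sum_le_sum h3).trans ?_
  refine sum_le_sum_of_subset_of_nonneg ?_ fun m _ _ => by positivity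
  intro m hm
  rw [mem_Ico] at hm
  rw [mem_Icc]
  omega

open scoped Classical in
theorem hET : StET := by
  intro I y ℓ H hl0 hl1 hH
  have hH0 : (0 : ℝ) < H := by exact_mod_cast hH
  set r : ℝ := √(H : ℝ) with hr
  have hr0 : 0 < r := Real.sqrt_pos.mpr hH0
  have hrr : r * r = H := Real.mul_self_sqrt hH0.le
  set δ : ℝ := 1 / r with hδ
  have hδ0 : 0 < δ := by positivity
  have hgapv : 1 / (2 * H * δ) = δ / 2 := by
    rw [hδ, ← hrr]
    field_simp
  set E : ℝ := ∑ h ∈ Icc 1 H, (1 : ℝ) / h * ‖∑ i ∈ I, ec (h * y i)‖ with hE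
  have hE0 : 0 ≤ E := sum_nonneg fun h _ => by positivity
  have hc0 : (0 : ℝ) ≤ I.card := Nat.cast_nonneg _
  have hper : ∀ (i : ℕ) (c : ℝ), Pk H (y i - c) = Pk H (Int.fract (y i) - c) + ⌊y i⌋ := by
    intro i c
    rw [← Pk_int]
    congr 1
    have := Int.fract_add_floor (y i)
    linarith
  have h3 : 3 * (I.card : ℝ) / r = 3 * δ * I.card := by
    rw [hδ]
    ring
  rw [h3, abs_le]
  have hcard : ((I.filter (fun i => Int.fract (y i) < ℓ)).card : ℝ) = ∑ i ∈ I, if Int.fract (y i) < ℓ then (1 : ℝ) else 0 := by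
    rw [Finset.sum_ite, sum_const, sum_const_zero, add_zero, nsmul_eq_mul, mul_one]
  constructor
  · -- lower bound
    by_cases hl : 2 * δ ≤ ℓ
    · have hG := sum_G I y H δ (ℓ - δ)
      have hle : ∑ i ∈ I, (Pk H (y i - δ) - Pk H (y i - (ℓ - δ))) ≤ ∑ i ∈ I, ((if Int.fract (y i) < ℓ then (1 : ℝ) else 0) + δ / 2) := by
        refine sum_le_sum fun i _ => ?_
        rw [hper i δ, hper i (ℓ - δ)]
        have hf0 := Int.fract_nonneg (y i)
        have hf1 := Int.fract_lt_one (y i)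
        split_ifs with h
        · have h5 : Pk H (Int.fract (y i) - δ) ≤ Pk H (Int.fract (y i) - (ℓ - δ) + ((1 : ℤ) : ℝ)) := by
            refine Pk_mono H hH ?_
            push_cast
            linarith
          rw [Pk_int] at h5
          push_cast at h5
          linarith
        · push Not at h
          have h5 : Pk H (Int.fract (y i) - δ) ≤ Pk H (1 - δ) := Pk_mono H hH (by linarith)
          have h6 : Pk H δ ≤ Pk H (Int.fract (y i) - (ℓ - δ)) := Pk_mono H hH (by linarith)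
          have h7 := Pk_gap H hH δ hδ0 (by linarith)
          rw [hgapv] at h7
          linarith
      rw [sum_add_distrib, ← hcard, sum_const, nsmul_eq_mul] at hle
      rw [abs_le] at hG
      nlinarith [hG.1]
    · push Not at hl
      have : (0 : ℝ) ≤ ((I.filter (fun i => Int.fract (y i) < ℓ)).card : ℝ) := Nat.cast_nonneg _
      nlinarith
  · -- upper bound
    by_cases hl : ℓ + 2 * δ ≤ 1
    · have hG := sum_G I y H (-δ) (ℓ + δ)
      have hle : ∑ i ∈ I, ((if Int.fract (y i) < ℓ then (1 : ℝ) else 0) - δ / 2) ≤ ∑ i ∈ I, (Pk H (y i - (-δ)) - Pk H (y i - (ℓ + δ))) := by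
        refine sum_le_sum fun i _ => ?_
        rw [hper i (-δ), hper i (ℓ + δ)]
        have hf0 := Int.fract_nonneg (y i)
        have hf1 := Int.fract_lt_one (y i)
        split_ifs with h
        · have h5 : Pk H (Int.fract (y i) - (ℓ + δ) + ((1 : ℤ) : ℝ)) ≤ Pk H (1 - δ) := by
            refine Pk_mono H hH ?_
            push_cast
            linarith
          have h6 : Pk H δ ≤ Pk H (Int.fract (y i) - (-δ)) := Pk_mono H hH (by linarith)
          have h7 := Pk_gap H hH δ hδ0 (by linarith)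
          rw [hgapv] at h7
          rw [Pk_int] at h5
          push_cast at h5
          linarith
        · have h5 : Pk H (Int.fract (y i) - (ℓ + δ)) ≤ Pk H (Int.fract (y i) - (-δ)) := Pk_mono H hH (by linarith)
          linarith
      rw [sum_sub_distrib, ← hcard, sum_const, nsmul_eq_mul] at hle
      rw [abs_le] at hG
      nlinarith [hG.2]
    · push Not at hl
      have h5 : ((I.filter (fun i => Int.fract (y i) < ℓ)).card : ℝ) ≤ I.card := by
        exact_mod_cast card_filter_le _ _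
      nlinarith

end Pool.Agent.Helper78.CU
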